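import Mathlib

/-!
Definitions: convex polygons, polyhedral 2-manifolds in Euclidean spaces, convex polygons in the
plane given by their vertices in counterclockwise order.
-/

set_option autoImplicit false

open Set

namespace Pool.Agent.H79.PM

/-- The Euclidean space `ℝⁿ`. -/
abbrev E (n : ℕ) := EuclideanSpace ℝ (Fin n)

/-- `S` is a convex `k`-gon: the convex hull of `k ≥ 3` points, which are exactly its extreme
points, and its affine span is a plane. -/
def IsPolygon {n : ℕ} (S : Set (E n)) (k : ℕ) : Prop :=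
  3 ≤ k ∧ Module.finrank ℝ (vectorSpan ℝ S) = 2 ∧
    ∃ v : Finset (E n), v.card = k ∧ S = convexHull ℝ (v : Set (E n)) ∧
      S.extremePoints ℝ = (v : Set (E n))

/-- `e` is an edge of `S`: a nondegenerate segment which is an extreme subset of `S`. -/
def IsEdge {n : ℕ} (S e : Set (E n)) : Prop :=
  ∃ u v : E n, u ≠ v ∧ e = segment ℝ u v ∧ IsExtreme ℝ S e

/-- `S` and `T` are disjoint, or meet in a single vertex of both, or in a single edge of both. -/
def Meets {n : ℕ} (S T : Set (E n)) : Prop :=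
  Disjoint S T ∨ (∃ x, S ∩ T = {x} ∧ x ∈ S.extremePoints ℝ ∧ x ∈ T.extremePoints ℝ) ∨
    (IsEdge S (S ∩ T) ∧ IsEdge T (S ∩ T))

/-- `M` is a closed connected topological surface: compact, connected, and every point has a
neighbourhood homeomorphic to an open subset of the plane. -/
def IsClosedSurface {n : ℕ} (M : Set (E n)) : Prop :=
  IsCompact M ∧ IsConnected M ∧ ∀ x ∈ M, ∃ U : Set (E n), IsOpen U ∧ x ∈ U ∧
    ∃ V : Set (ℝ × ℝ), IsOpen V ∧ Nonempty (↥(M ∩ U) ≃ₜ ↥V)

/-- (Connected) polyhedral 2-manifolds in `ℝⁿ`, given by their set `F` of faces. -/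
structure IsPolyhedralManifold {n : ℕ} (F : Set (Set (E n))) : Prop where
  finite : F.Finite
  polygon : ∀ S ∈ F, ∃ k, IsPolygon S k
  meets : ∀ S ∈ F, ∀ T ∈ F, S ≠ T → Meets S T
  surface : IsClosedSurface (⋃₀ F)
  noncoplanar : ∀ S ∈ F, ∀ T ∈ F, S ≠ T → IsEdge S (S ∩ T) →
    2 < Module.finrank ℝ (vectorSpan ℝ (S ∪ T))

/-- The determinant of two vectors of the plane. -/
def cross (a b : E 2) : ℝ := a 0 * b 1 - a 1 * b 0

/-- `p 0, p 1, ..., p (m - 1)` are the vertices of a convex `m`-gon in the plane, in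
counterclockwise order: all the other vertices lie strictly to the left of the line from `p i` to
the next vertex `p (i + 1)` (indices modulo `m`). -/
def ConvexPolygon {m : ℕ} [NeZero m] (p : Fin m → E 2) : Prop :=
  ∀ i j : Fin m, j ≠ i → j ≠ i + 1 → 0 < cross (p (i + 1) - p i) (p j - p i)

/-- `S` is congruent to the plane set `Q`. -/
def Congruent {n : ℕ} (S : Set (E n)) (Q : Set (E 2)) : Prop :=
  ∃ φ : E 2 →ᵃⁱ[ℝ] E n, S = φ '' Q

end Pool.Agent.H79.PM
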