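import Pool.Agent.H79.PM.Poly

/-!
`2 ^ m` isometric copies of a convex `m`-gon in `ℝ^(m + 2)`.
-/

set_option autoImplicit false

open Set

namespace Pool.Agent.H79.PM

/-- signs -/
def sg (b : Bool) : ℝ := if b then 1 else -1

lemma sg_mul_self (b : Bool) : sg b * sg b = 1 := by cases b <;> simp [sg]

lemma sg_ne {a b : Bool} (hab : a ≠ b) : sg a = - sg b := by
  cases a <;> cases b <;> simp_all [sg]

lemma sg_sq (b : Bool) (t : ℝ) : (sg b * t) ^ 2 = t ^ 2 := by cases b <;> simp [sg]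

lemma abs_sg_mul (b : Bool) {t : ℝ} (ht : 0 ≤ t) : |sg b * t| = t := by
  cases b <;> simp [sg, abs_of_nonneg ht]

lemma sg_decide_abs (a : ℝ) : sg (decide (0 ≤ a)) * |a| = a := by
  by_cases ha : 0 ≤ a
  · simp [sg, ha, abs_of_nonneg ha]
  · have := not_le.1 ha
    simp [sg, ha, abs_of_neg this]

lemma ext2 {m : ℕ} {y z : E (m + 2)} (h0 : y 0 = z 0) (h1 : y (Fin.succ 0) = z (Fin.succ 0))
    (h2 : ∀ j : Fin m, y j.succ.succ = z j.succ.succ) : y = z := by
  ext k
  refine Fin.cases h0 (fun k => ?_) k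
  exact Fin.cases h1 (fun k => h2 k) k

variable {m : ℕ} [NeZero m] (p : Fin m → E 2)

/-- the data of the embedding -/
structure Data where
  c : ℝ
  A : E 2 →L[ℝ] ℝ
  B : E 2 →L[ℝ] ℝ
  hc : 0 < c
  hn : ∀ w, A w ^ 2 + B w ^ 2 + ∑ j, (c * cross (ed p j) w) ^ 2 = ‖w‖ ^ 2
  hz : ∀ w, A w = 0 → B w = 0 → w = 0

lemma exists_data : Nonempty (Data p) := by
  set a := ∑ j, (ed p j 1) ^ 2 with ha
  set b := ∑ j, (ed p j 0) * (ed p j 1) with hb
  set d := ∑ j, (ed p j 0) ^ 2 with hd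
  have hab : b ^ 2 ≤ d * a := by
    have := Finset.sum_mul_sq_le_sq_mul_sq Finset.univ (fun j => ed p j 0) (fun j => ed p j 1)
    exact this
  have ha0 : 0 ≤ a := Finset.sum_nonneg (fun j _ => sq_nonneg _)
  have hd0 : 0 ≤ d := Finset.sum_nonneg (fun j _ => sq_nonneg _)
  have ht : 0 < 1 + a + d := by positivity
  set t := (1 + a + d)⁻¹ with htdef
  have ht0 : 0 < t := by positivity
  have htm : t * (1 + a + d) = 1 := inv_mul_cancel₀ ht.ne'
  set α := t * (1 + d) with hα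
  have hα0 : 0 < α := by positivity
  set γ := t * ((1 + a) * (1 + d) - b ^ 2) / (1 + d) with hγ
  have hγ0 : 0 < γ := by
    have h1 : 0 < (1 + a) * (1 + d) - b ^ 2 := by nlinarith
    have h2 : 0 < 1 + d := by positivity
    positivity
  have hsα : Real.sqrt α ^ 2 = α := Real.sq_sqrt hα0.le
  have hsγ : Real.sqrt γ ^ 2 = γ := Real.sq_sqrt hγ0.le
  have hsα0 : 0 < Real.sqrt α := Real.sqrt_pos.2 hα0
  have hsγ0 : 0 < Real.sqrt γ := Real.sqrt_pos.2 hγ0
  let A : E 2 →L[ℝ] ℝ := Real.sqrt α • (EuclideanSpace.proj (0 : Fin 2) : E 2 →L[ℝ] ℝ) +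
    (t * b / Real.sqrt α) • (EuclideanSpace.proj (1 : Fin 2) : E 2 →L[ℝ] ℝ)
  let B : E 2 →L[ℝ] ℝ := Real.sqrt γ • (EuclideanSpace.proj (1 : Fin 2) : E 2 →L[ℝ] ℝ)
  have hA : ∀ w : E 2, A w = Real.sqrt α * w 0 + (t * b / Real.sqrt α) * w 1 := fun w => rfl
  have hB : ∀ w : E 2, B w = Real.sqrt γ * w 1 := fun w => rfl
  refine ⟨⟨Real.sqrt t, A, B, Real.sqrt_pos.2 ht0, ?_, ?_⟩⟩
  · intro w
    have hnorm : ‖w‖ ^ 2 = w 0 ^ 2 + w 1 ^ 2 := by
      rw [EuclideanSpace.norm_sq_eq, Fin.sum_univ_two]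
      simp
    have hsum : ∑ j, (Real.sqrt t * cross (ed p j) w) ^ 2 =
        t * (d * w 1 ^ 2 - 2 * b * w 0 * w 1 + a * w 0 ^ 2) := by
      rw [ha, hb, hd, Finset.sum_mul, Finset.sum_mul, Finset.mul_sum, Finset.sum_mul,
        Finset.sum_mul, ← Finset.sum_sub_distrib, ← Finset.sum_add_distrib, Finset.mul_sum]
      refine Finset.sum_congr rfl (fun j _ => ?_)
      rw [mul_pow, Real.sq_sqrt ht0.le]
      unfold cross
      ring
    rw [hsum, hnorm, hA, hB]
    have e1 : (Real.sqrt α * w 0 + (t * b / Real.sqrt α) * w 1) ^ 2 =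
        α * w 0 ^ 2 + 2 * t * b * w 0 * w 1 + (t * b) ^ 2 / α * w 1 ^ 2 := by
      have h3 : (t * b / Real.sqrt α) * Real.sqrt α = t * b := div_mul_cancel₀ _ hsα0.ne'
      have h4 : (t * b / Real.sqrt α) ^ 2 = (t * b) ^ 2 / α := by rw [div_pow, hsα]
      calc (Real.sqrt α * w 0 + (t * b / Real.sqrt α) * w 1) ^ 2
          = Real.sqrt α ^ 2 * w 0 ^ 2 + 2 * ((t * b / Real.sqrt α) * Real.sqrt α) * w 0 * w 1 +
            (t * b / Real.sqrt α) ^ 2 * w 1 ^ 2 := by ring
        _ = _ := by rw [h3, h4, hsα]; ring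
    have e2 : (Real.sqrt γ * w 1) ^ 2 = γ * w 1 ^ 2 := by rw [mul_pow, hsγ]
    rw [e1, e2]
    have h5 : (t * b) ^ 2 / α + γ = t * (1 + a) := by
      rw [hγ, hα]
      have h2 : (1 + d) ≠ 0 := by positivity
      field_simp
      ring
    have h6 : (t * b) ^ 2 / α * w 1 ^ 2 + γ * w 1 ^ 2 = t * (1 + a) * w 1 ^ 2 := by
      rw [← h5]; ring
    have h7 : α * w 0 ^ 2 + 2 * t * b * w 0 * w 1 + (t * b) ^ 2 / α * w 1 ^ 2 + γ * w 1 ^ 2 +
        t * (d * w 1 ^ 2 - 2 * b * w 0 * w 1 + a * w 0 ^ 2) =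
        (α + t * a) * w 0 ^ 2 + ((t * b) ^ 2 / α * w 1 ^ 2 + γ * w 1 ^ 2) + t * d * w 1 ^ 2 := by
      ring
    rw [h7, h6, hα]
    have h8 : (t * (1 + d) + t * a) * w 0 ^ 2 + t * (1 + a) * w 1 ^ 2 + t * d * w 1 ^ 2 =
        (t * (1 + a + d)) * (w 0 ^ 2 + w 1 ^ 2) := by ring
    rw [h8, htm, one_mul]
  · intro w h1 h2
    rw [hA] at h1
    rw [hB] at h2
    have h3 : w 1 = 0 := by
      rcases mul_eq_zero.1 h2 with h | h
      · exact absurd h hsγ0.ne'
      · exact h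
    rw [h3, mul_zero, add_zero] at h1
    have h4 : w 0 = 0 := by
      rcases mul_eq_zero.1 h1 with h | h
      · exact absurd h hsα0.ne'
      · exact h
    ext k
    fin_cases k
    · simpa using h4
    · simpa using h3

variable {p} (D : Data p)

/-- the linear parts of the embeddings -/
noncomputable def Data.lin (x : Fin m → Bool) : E 2 →ₗ[ℝ] E (m + 2) where
  toFun w := WithLp.toLp 2 (Fin.cons (D.A w) (Fin.cons (D.B w)
    (fun j => sg (x j) * (D.c * cross (ed p j) w))))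
  map_add' v w := by
    apply ext2
    · simp
    · simp
    · intro j
      simp [cross_add]
      ring
  map_smul' t v := by
    apply ext2
    · simp
    · simp
    · intro j
      simp [cross_smul]
      ring

lemma Data.lin0 (x : Fin m → Bool) (w : E 2) : D.lin x w 0 = D.A w := rfl
lemma Data.lin1 (x : Fin m → Bool) (w : E 2) : D.lin x w (Fin.succ 0) = D.B w := rfl
lemma Data.lin2 (x : Fin m → Bool) (w : E 2) (j : Fin m) :
    D.lin x w j.succ.succ = sg (x j) * (D.c * cross (ed p j) w) := rfl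

/-- the embeddings -/
noncomputable def Data.φ (x : Fin m → Bool) : E 2 →ᵃⁱ[ℝ] E (m + 2) where
  toFun u := WithLp.toLp 2 (Fin.cons (D.A u) (Fin.cons (D.B u)
    (fun j => sg (x j) * (D.c * h p j u))))
  linear := D.lin x
  map_vadd' u w := by
    apply ext2
    · simp [D.lin0]
    · simp
      rfl
    · intro j
      have : h p j (w + u) = cross (ed p j) w + h p j u := by
        have := h_sub p j (w + u) u
        rw [add_sub_cancel_right] at this
        linarith
      simp only [vadd_eq_add, PiLp.add_apply, D.lin2, Fin.cons_succ, this]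
      ring
  norm_map w := by
    have h1 : ‖D.lin x w‖ ^ 2 = ‖w‖ ^ 2 := by
      rw [EuclideanSpace.norm_sq_eq, Fin.sum_univ_succ, Fin.sum_univ_succ, ← D.hn w]
      simp only [D.lin0, D.lin1, D.lin2, Real.norm_eq_abs, sq_abs]
      rw [← add_assoc]
      congr 1
      refine Finset.sum_congr rfl (fun j _ => ?_)
      rw [sg_sq]
    exact (sq_eq_sq₀ (norm_nonneg _) (norm_nonneg _)).1 h1

lemma Data.φ0 (x : Fin m → Bool) (w : E 2) : D.φ x w 0 = D.A w := rfl
lemma Data.φ1 (x : Fin m → Bool) (w : E 2) : D.φ x w (Fin.succ 0) = D.B w := rfl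
lemma Data.φ2 (x : Fin m → Bool) (w : E 2) (j : Fin m) :
    D.φ x w j.succ.succ = sg (x j) * (D.c * h p j w) := rfl

/-- the faces -/
def Data.F (x : Fin m → Bool) : Set (E (m + 2)) := D.φ x '' P p

lemma Data.φ_eq {x y : Fin m → Bool} {u v : E 2} :
    D.φ x u = D.φ y v ↔ u = v ∧ ∀ j, x j ≠ y j → h p j u = 0 := by
  constructor
  · intro heq
    have h0 : D.A (u - v) = 0 := by
      have := congrArg (fun z : E (m + 2) => z 0) heq
      simp only [D.φ0] at this
      rw [map_sub, this, sub_self]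
    have h1 : D.B (u - v) = 0 := by
      have := congrArg (fun z : E (m + 2) => z (Fin.succ 0)) heq
      simp only [D.φ1] at this
      rw [map_sub, this, sub_self]
    have huv : u = v := sub_eq_zero.1 (D.hz _ h0 h1)
    refine ⟨huv, fun j hj => ?_⟩
    have h2 := congrArg (fun z : E (m + 2) => z j.succ.succ) heq
    simp only [D.φ2] at h2
    rw [sg_ne hj, ← huv] at h2
    have h3 : sg (y j) * (D.c * h p j u) = 0 := by linarith
    rcases mul_eq_zero.1 h3 with h4 | h4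
    · have := sg_mul_self (y j)
      rw [h4] at this
      norm_num at this
    · rcases mul_eq_zero.1 h4 with h5 | h5
      · exact absurd h5 D.hc.ne'
      · exact h5
  · rintro ⟨rfl, hj⟩
    apply ext2
    · rfl
    · rfl
    · intro j
      rw [D.φ2, D.φ2]
      by_cases hxy : x j = y j
      · rw [hxy]
      · rw [hj j hxy]
        simp

lemma Data.mem_F {x : Fin m → Bool} {y : Fin m → Bool} {u : E 2} (hu : u ∈ P p) :
    D.φ x u ∈ D.F y ↔ ∀ j, x j ≠ y j → h p j u = 0 := by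
  constructor
  · rintro ⟨v, hv, hvu⟩
    exact (D.φ_eq.1 hvu.symm).2
  · intro hj
    exact ⟨u, hu, (D.φ_eq.2 ⟨rfl, hj⟩).symm⟩

lemma Data.F_injective (hm : 3 ≤ m) (hp : ConvexPolygon p) : Function.Injective D.F := by
  intro x y hxy
  obtain ⟨u, hu, hpos⟩ := exists_interior hm hp
  have h1 : D.φ x u ∈ D.F y := by rw [← hxy]; exact ⟨u, hu, rfl⟩
  have h2 := (D.mem_F hu).1 h1
  funext j
  by_contra hj
  exact absurd (h2 j hj) (hpos j).ne'

lemma Data.coord_nonneg {x : Fin m → Bool} {z : E (m + 2)} (hz : z ∈ D.F x) (j : Fin m) :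
    0 ≤ sg (x j) * z j.succ.succ := by
  obtain ⟨u, hu, rfl⟩ := hz
  rw [D.φ2, ← mul_assoc, sg_mul_self, one_mul]
  exact mul_nonneg D.hc.le (hu j)

lemma Data.coord_zero {x : Fin m → Bool} {u : E 2} {j : Fin m} :
    (D.φ x u) j.succ.succ = 0 ↔ h p j u = 0 := by
  rw [D.φ2]
  constructor
  · intro h0
    rcases mul_eq_zero.1 h0 with h1 | h1
    · have := sg_mul_self (x j)
      rw [h1] at this
      norm_num at this
    · rcases mul_eq_zero.1 h1 with h2 | h2
      · exact absurd h2 D.hc.ne'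
      · exact h2
  · intro h0
    rw [h0]; simp

/-- a coordinate hyperplane cuts out an extreme subset -/
lemma Data.zero_of_openSegment {x : Fin m → Bool} {z z1 z2 : E (m + 2)} (h1 : z1 ∈ D.F x)
    (h2 : z2 ∈ D.F x) (hz : z ∈ openSegment ℝ z1 z2) {j : Fin m} (h0 : z j.succ.succ = 0) :
    z1 j.succ.succ = 0 := by
  obtain ⟨a, b, ha, hb, hab, rfl⟩ := hz
  have e1 := D.coord_nonneg h1 j
  have e2 := D.coord_nonneg h2 j
  simp only [PiLp.add_apply, PiLp.smul_apply, smul_eq_mul] at h0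
  have e3 : a * (sg (x j) * z1 j.succ.succ) + b * (sg (x j) * z2 j.succ.succ) = 0 := by
    have : a * (sg (x j) * z1 j.succ.succ) + b * (sg (x j) * z2 j.succ.succ) =
      sg (x j) * (a * z1 j.succ.succ + b * z2 j.succ.succ) := by ring
    rw [this, h0, mul_zero]
  have e4 : sg (x j) * z1 j.succ.succ = 0 := by
    have h5 := mul_nonneg ha.le e1
    have h6 := mul_nonneg hb.le e2
    have h7 : a * (sg (x j) * z1 j.succ.succ) = 0 := by linarith
    rcases mul_eq_zero.1 h7 with h8 | h8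
    · exact absurd h8 ha.ne'
    · exact h8
  rcases mul_eq_zero.1 e4 with h8 | h8
  · have := sg_mul_self (x j)
    rw [h8] at this
    norm_num at this
  · exact h8

lemma edge_eq (hm : 3 ≤ m) (hp : ConvexPolygon p) (i : Fin m) :
    {u | u ∈ P p ∧ h p i u = 0} = segment ℝ (p i) (p (i + 1)) := by
  apply subset_antisymm
  · rintro u ⟨hu, h0⟩
    obtain ⟨t, h1, h2, h3⟩ := on_edge hm hp hu h0
    exact ⟨1 - t, t, by linarith, h1, by ring, h3.symm⟩
  · rintro u ⟨a, b, ha, hb, hab, rfl⟩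
    refine ⟨P_convex (p_mem hp i) (p_mem hp (i + 1)) ha hb hab, ?_⟩
    rw [h_comb p i _ _ a b hab, h_self, h_succ]
    simp

lemma Data.isEdge (hm : 3 ≤ m) (hp : ConvexPolygon p) (x : Fin m → Bool) (i : Fin m) :
    IsEdge (D.F x) (D.φ x '' {u | u ∈ P p ∧ h p i u = 0}) := by
  refine ⟨D.φ x (p i), D.φ x (p (i + 1)), ?_, ?_, ?_⟩
  · intro heq
    have := (D.φ x).injective heq
    exact succ_ne hm i (p_injective hm hp this).symm
  · rw [edge_eq hm hp i]
    exact image_segment ℝ (D.φ x).toAffineMap (p i) (p (i + 1))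
  · refine ⟨?_, ?_⟩
    · rintro _ ⟨u, hu, rfl⟩
      exact ⟨u, hu.1, rfl⟩
    · rintro z1 h1 z2 h2 z ⟨u, hu, rfl⟩ hz
      have h3 := D.zero_of_openSegment h1 h2 hz (j := i) (D.coord_zero.2 hu.2)
      obtain ⟨u1, hu1, rfl⟩ := h1
      exact ⟨u1, ⟨hu1, D.coord_zero.1 h3⟩, rfl⟩

lemma Data.mem_extreme (hm : 3 ≤ m) (hp : ConvexPolygon p) (x : Fin m → Bool) (v : Fin m) :
    D.φ x (p v) ∈ (D.F x).extremePoints ℝ := by
  obtain ⟨i, rfl⟩ : ∃ i : Fin m, v = i + 1 := ⟨v - 1, by rw [sub_add_cancel]⟩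
  rw [mem_extremePoints_iff_left]
  refine ⟨⟨p (i + 1), p_mem hp _, rfl⟩, ?_⟩
  intro z1 h1 z2 h2 hz
  have h3 := D.zero_of_openSegment h1 h2 hz (j := i) (D.coord_zero.2 (h_succ p i))
  have h4 := D.zero_of_openSegment h1 h2 hz (j := i + 1) (D.coord_zero.2 (h_self p (i + 1)))
  obtain ⟨u1, hu1, rfl⟩ := h1
  rw [eq_vertex hm hp (D.coord_zero.1 h3) (D.coord_zero.1 h4)]

lemma vectorSpan_P (hm : 3 ≤ m) (hp : ConvexPolygon p) : vectorSpan ℝ (P p) = ⊤ := by
  rw [eq_top_iff]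
  intro w _
  have hD := cross_ed hm hp 0
  have h1 := cross_basis (ed p 0) (ed p (0 + 1)) w
  have h2 : ∀ i, ed p i ∈ vectorSpan ℝ (P p) := fun i =>
    vsub_mem_vectorSpan ℝ (p_mem hp (i + 1)) (p_mem hp i)
  have h3 : cross (ed p 0) (ed p (0 + 1)) • w ∈ vectorSpan ℝ (P p) := by
    rw [h1]
    exact Submodule.add_mem _ (Submodule.smul_mem _ _ (h2 _)) (Submodule.smul_mem _ _ (h2 _))
  have h4 := Submodule.smul_mem _ (cross (ed p 0) (ed p (0 + 1)))⁻¹ h3
  rwa [smul_smul, inv_mul_cancel₀ hD.ne', one_smul] at h4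

lemma Data.vectorSpan_F (hm : 3 ≤ m) (hp : ConvexPolygon p) (x : Fin m → Bool) :
    vectorSpan ℝ (D.F x) = LinearMap.range (D.lin x) := by
  have h1 := AffineMap.map_vectorSpan (D.φ x).toAffineMap (s := P p)
  have h2 : (D.φ x).toAffineMap.linear = D.lin x := rfl
  rw [h2, vectorSpan_P hm hp, Submodule.map_top] at h1
  exact h1.symm

lemma Data.finrank_F (hm : 3 ≤ m) (hp : ConvexPolygon p) (x : Fin m → Bool) :
    Module.finrank ℝ (vectorSpan ℝ (D.F x)) = 2 := by
  rw [D.vectorSpan_F hm hp]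
  have hinj : Function.Injective (D.lin x) := by
    rw [← LinearMap.ker_eq_bot, LinearMap.ker_eq_bot']
    intro w hw
    apply D.hz w
    · rw [← D.lin0 x, hw]; rfl
    · rw [← D.lin1 x, hw]; rfl
  rw [LinearMap.finrank_range_of_inj hinj]
  simp

lemma Data.isPolygon (hm : 3 ≤ m) (hp : ConvexPolygon p) (x : Fin m → Bool) :
    IsPolygon (D.F x) m := by
  refine ⟨hm, D.finrank_F hm hp x, ?_⟩
  classical
  refine ⟨Finset.univ.image (fun i => D.φ x (p i)), ?_, ?_, ?_⟩
  · have hinj : Function.Injective (fun i => D.φ x (p i)) :=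
      (D.φ x).injective.comp (p_injective hm hp)
    rw [Finset.card_image_of_injective _ hinj]
    simp
  · rw [Finset.coe_image, Finset.coe_univ, image_univ]
    unfold Data.F
    rw [P_eq hm hp]
    have h1 := AffineMap.image_convexHull (D.φ x).toAffineMap (range p)
    have h2 : range (fun i => D.φ x (p i)) = D.φ x '' (range p) := by
      rw [← range_comp]; rfl
    rw [h2]
    exact h1
  · rw [Finset.coe_image, Finset.coe_univ, image_univ]
    apply subset_antisymm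
    · have h1 := AffineMap.image_convexHull (D.φ x).toAffineMap (range p)
      have h2 : range (fun i => D.φ x (p i)) = D.φ x '' (range p) := by
        rw [← range_comp]; rfl
      unfold Data.F
      rw [P_eq hm hp, h2]
      have h3 : D.φ x '' (convexHull ℝ (range p)) = convexHull ℝ (D.φ x '' (range p)) := h1
      rw [h3]
      exact extremePoints_convexHull_subset
    · rintro _ ⟨v, rfl⟩
      exact D.mem_extreme hm hp x v

lemma Data.meets (hm : 3 ≤ m) (hp : ConvexPolygon p) {x y : Fin m → Bool} (hxy : x ≠ y) :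
    Meets (D.F x) (D.F y) := by
  obtain ⟨i, hi⟩ : ∃ i, x i ≠ y i := Function.ne_iff.1 hxy
  by_cases huniq : ∀ j, x j ≠ y j → j = i
  · right; right
    have h1 : D.F x ∩ D.F y = D.φ x '' {u | u ∈ P p ∧ h p i u = 0} := by
      apply subset_antisymm
      · rintro _ ⟨⟨u, hu, rfl⟩, h2⟩
        exact ⟨u, ⟨hu, (D.mem_F hu).1 h2 i hi⟩, rfl⟩
      · rintro _ ⟨u, hu, rfl⟩
        refine ⟨⟨u, hu.1, rfl⟩, (D.mem_F hu.1).2 (fun j hj => ?_)⟩
        rw [huniq j hj]
        exact hu.2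
    have h2 : D.φ x '' {u | u ∈ P p ∧ h p i u = 0} = D.φ y '' {u | u ∈ P p ∧ h p i u = 0} := by
      apply image_congr
      intro u hu
      apply D.φ_eq.2
      refine ⟨rfl, fun j hj => ?_⟩
      rw [huniq j hj]
      exact hu.2
    refine ⟨?_, ?_⟩
    · rw [h1]
      exact D.isEdge hm hp x i
    · rw [h1, h2]
      exact D.isEdge hm hp y i
  · push Not at huniq
    obtain ⟨j, hj, hji⟩ := huniq
    by_cases hdis : Disjoint (D.F x) (D.F y)
    · exact Or.inl hdis
    · right; left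
      rw [Set.not_disjoint_iff] at hdis
      obtain ⟨_, ⟨u, hu, rfl⟩, h2⟩ := hdis
      have h3 := (D.mem_F hu).1 h2
      obtain ⟨v, hv, hv2⟩ := two_tight hm hp hu (Ne.symm hji) (h3 i hi) (h3 j hj)
      subst hv
      refine ⟨D.φ x (p v), ?_, D.mem_extreme hm hp x v, ?_⟩
      · apply subset_antisymm
        · rintro _ ⟨⟨u', hu', rfl⟩, h4⟩
          have h5 := (D.mem_F hu').1 h4
          rw [mem_singleton_iff]
          congr 1
          rcases hv2 with ⟨e1, e2⟩ | ⟨e1, e2⟩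
          · rw [← e1]
            exact eq_vertex hm hp (h5 i hi) (by rw [e1, ← e2]; exact h5 j hj)
          · rw [← e1]
            exact eq_vertex hm hp (h5 j hj) (by rw [e1, ← e2]; exact h5 i hi)
        · rw [singleton_subset_iff]
          exact ⟨⟨p v, hu, rfl⟩, h2⟩
      · have : D.φ x (p v) = D.φ y (p v) := D.φ_eq.2 ⟨rfl, h3⟩
        rw [this]
        exact D.mem_extreme hm hp y v

lemma Data.noncoplanar (hm : 3 ≤ m) (hp : ConvexPolygon p) {x y : Fin m → Bool} (hxy : x ≠ y) :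
    2 < Module.finrank ℝ (vectorSpan ℝ (D.F x ∪ D.F y)) := by
  obtain ⟨i, hi⟩ : ∃ i, x i ≠ y i := Function.ne_iff.1 hxy
  obtain ⟨u, hu, hpos⟩ := exists_interior hm hp
  have hfin := D.finrank_F hm hp x
  suffices hlt : vectorSpan ℝ (D.F x) < vectorSpan ℝ (D.F x ∪ D.F y) by
    have := Submodule.finrank_lt_finrank_of_lt hlt
    rwa [hfin] at this
  refine lt_of_le_of_ne (vectorSpan_mono ℝ subset_union_left) ?_
  intro heq
  have h1 : D.φ x u -ᵥ D.φ y u ∈ vectorSpan ℝ (D.F x ∪ D.F y) :=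
    vsub_mem_vectorSpan ℝ (Or.inl ⟨u, hu, rfl⟩) (Or.inr ⟨u, hu, rfl⟩)
  rw [← heq, D.vectorSpan_F hm hp x] at h1
  obtain ⟨w, hw⟩ := h1
  rw [vsub_eq_sub] at hw
  have h2 : w = 0 := by
    apply D.hz w
    · rw [← D.lin0 x, hw, PiLp.sub_apply, D.φ0, D.φ0, sub_self]
    · rw [← D.lin1 x, hw, PiLp.sub_apply, D.φ1, D.φ1, sub_self]
  rw [h2, map_zero] at hw
  have h3 := (D.φ_eq.1 (sub_eq_zero.1 hw.symm)).2 i hi
  exact absurd h3 (hpos i).ne'

end Pool.Agent.H79.PM
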