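import Pool.Agent.H79.PM.Defs

/-!
Convex polygons in the plane: the half-plane description and the points on the boundary.
-/

set_option autoImplicit false

open Set

namespace Pool.Agent.H79.PM

section fin

variable {m : ℕ} [NeZero m]

lemma one_ne (hm : 3 ≤ m) : (1 : Fin m) ≠ 0 := by
  obtain ⟨k, rfl⟩ : ∃ k, m = k + 3 := ⟨m - 3, by omega⟩
  intro h
  have := congrArg Fin.val h
  simp at this

lemma two_ne (hm : 3 ≤ m) : (1 + 1 : Fin m) ≠ 0 := by
  obtain ⟨k, rfl⟩ : ∃ k, m = k + 3 := ⟨m - 3, by omega⟩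
  intro h
  have h1 := congrArg Fin.val h
  rw [Fin.val_add] at h1
  simp only [Fin.val_one, Fin.val_zero] at h1
  rw [Nat.mod_eq_of_lt (by simp)] at h1
  simp at h1

lemma succ_ne (hm : 3 ≤ m) (i : Fin m) : i + 1 ≠ i := by
  intro h
  exact one_ne hm (by simpa using h)

lemma succ2_ne (hm : 3 ≤ m) (i : Fin m) : i + 1 + 1 ≠ i := by
  intro h
  rw [add_assoc] at h
  exact two_ne hm (by simpa using h)

end fin

lemma cross_self (a : E 2) : cross a a = 0 := by unfold cross; ring
lemma cross_swap (a b : E 2) : cross a b = - cross b a := by unfold cross; ring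
lemma cross_add (a b c : E 2) : cross a (b + c) = cross a b + cross a c := by
  simp only [cross, PiLp.add_apply]; ring
lemma cross_sub (a b c : E 2) : cross a (b - c) = cross a b - cross a c := by
  simp only [cross, PiLp.sub_apply]; ring
lemma cross_smul (t : ℝ) (a b : E 2) : cross a (t • b) = t * cross a b := by
  simp only [cross, PiLp.smul_apply, smul_eq_mul]; ring

/-- every vector in the basis `a, b` -/
lemma cross_basis (a b w : E 2) : cross a b • w = cross w b • a + cross a w • b := by
  ext i
  fin_cases i <;> simp [cross] <;> ring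

variable {m : ℕ} [NeZero m] (p : Fin m → E 2)

/-- the edge vectors -/
def ed (i : Fin m) : E 2 := p (i + 1) - p i

/-- the affine functional vanishing on the `i`-th edge, positive on the other vertices -/
def h (i : Fin m) (u : E 2) : ℝ := cross (ed p i) (u - p i)

/-- the intersection of the half-planes -/
def P : Set (E 2) := {u | ∀ i, 0 ≤ h p i u}

lemma h_self (i : Fin m) : h p i (p i) = 0 := by simp [h, cross]
lemma h_succ (i : Fin m) : h p i (p (i + 1)) = 0 := by
  unfold h ed; exact cross_self _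

lemma h_comb (i : Fin m) (u v : E 2) (a b : ℝ) (hab : a + b = 1) :
    h p i (a • u + b • v) = a * h p i u + b * h p i v := by
  have : a • u + b • v - p i = a • (u - p i) + b • (v - p i) := by
    have h1 : p i = (a + b) • p i := by rw [hab, one_smul]
    rw [smul_sub, smul_sub]
    nth_rewrite 1 [h1]
    rw [add_smul]
    abel
  unfold h
  rw [this, cross_add, cross_smul, cross_smul]

lemma h_sub (i : Fin m) (u v : E 2) : h p i u - h p i v = cross (ed p i) (u - v) := by
  unfold h
  rw [← cross_sub]
  congr 1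
  abel

variable {p}

lemma h_pos (hp : ConvexPolygon p) {i j : Fin m} (h1 : j ≠ i) (h2 : j ≠ i + 1) :
    0 < h p i (p j) := hp i j h1 h2

lemma h_nonneg (hp : ConvexPolygon p) (i j : Fin m) : 0 ≤ h p i (p j) := by
  by_cases h1 : j = i
  · rw [h1, h_self]
  by_cases h2 : j = i + 1
  · rw [h2, h_succ]
  exact (h_pos hp h1 h2).le

lemma p_mem (hp : ConvexPolygon p) (j : Fin m) : p j ∈ P p := fun i => h_nonneg hp i j

lemma cross_ed (hm : 3 ≤ m) (hp : ConvexPolygon p) (i : Fin m) :
    0 < cross (ed p i) (ed p (i + 1)) := by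
  have h1 := h_pos hp (succ2_ne hm i) (succ_ne hm (i + 1))
  have h2 := h_succ p i
  have h3 := h_sub p i (p (i + 1 + 1)) (p (i + 1))
  rw [h2, sub_zero] at h3
  unfold ed at h3 ⊢
  rw [← h3]
  exact h1

/-- the points of `P` on the line of the `i`-th edge are on the edge -/
lemma on_edge (hm : 3 ≤ m) (hp : ConvexPolygon p) {u : E 2} (hu : u ∈ P p) {i : Fin m}
    (hi : h p i u = 0) : ∃ t : ℝ, 0 ≤ t ∧ t ≤ 1 ∧ u = (1 - t) • p i + t • p (i + 1) := by
  have hD := cross_ed hm hp i
  set D := cross (ed p i) (ed p (i + 1)) with hDdef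
  set t := cross (u - p i) (ed p (i + 1)) / D with ht
  have h1 : D • (u - p i) = (t * D) • ed p i := by
    rw [hDdef, cross_basis (ed p i) (ed p (i + 1)) (u - p i)]
    have : cross (ed p i) (u - p i) = 0 := hi
    rw [this, zero_smul, add_zero, ← hDdef, ht, div_mul_cancel₀ _ hD.ne']
  have h2 : u - p i = t • ed p i := by
    have h3 : D⁻¹ • (D • (u - p i)) = D⁻¹ • ((t * D) • ed p i) := by rw [h1]
    rw [smul_smul, smul_smul, inv_mul_cancel₀ hD.ne', one_smul, mul_comm t D, ← mul_assoc,
      inv_mul_cancel₀ hD.ne', one_mul] at h3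
    exact h3
  have h4 : u = (1 - t) • p i + t • p (i + 1) := by
    have : u = p i + t • ed p i := by rw [← h2]; abel
    rw [this]
    unfold ed
    rw [smul_sub, sub_smul, one_smul]
    abel
  refine ⟨t, ?_, ?_, h4⟩
  · have h5 := hu (i - 1)
    rw [h4, h_comb p _ _ _ _ _ (by ring)] at h5
    have h6 : h p (i - 1) (p i) = 0 := by
      have := h_succ p (i - 1)
      rwa [sub_add_cancel] at this
    have h7 : 0 < h p (i - 1) (p (i + 1)) := by
      apply h_pos hp
      · intro h8
        apply succ2_ne hm (i - 1)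
        rw [sub_add_cancel]
        exact h8
      · rw [sub_add_cancel]
        exact succ_ne hm i
    rw [h6, mul_zero, zero_add] at h5
    exact nonneg_of_mul_nonneg_left h5 h7
  · have h5 := hu (i + 1)
    rw [h4, h_comb p _ _ _ _ _ (by ring), h_self, mul_zero, add_zero] at h5
    have h7 : 0 < h p (i + 1) (p i) := h_pos hp (succ_ne hm i).symm (succ2_ne hm i).symm
    have := nonneg_of_mul_nonneg_left h5 h7
    linarith

/-- near every point of the polygon only the lines of two consecutive edges matter -/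
lemma chart_index (hm : 3 ≤ m) (hp : ConvexPolygon p) {u : E 2} (hu : u ∈ P p) :
    ∃ i : Fin m, ∀ j, j ≠ i → j ≠ i + 1 → 0 < h p j u := by
  by_cases hall : ∀ i, 0 < h p i u
  · exact ⟨0, fun j _ _ => hall j⟩
  · push Not at hall
    obtain ⟨i, hi⟩ := hall
    have hi0 : h p i u = 0 := le_antisymm hi (hu i)
    obtain ⟨t, h0, h1, ht⟩ := on_edge hm hp hu hi0
    rcases h0.eq_or_lt with h0 | h0
    · subst h0
      refine ⟨i - 1, fun j hj1 hj2 => ?_⟩
      rw [sub_add_cancel] at hj2
      have : u = p i := by rw [ht]; simp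
      rw [this]
      apply h_pos hp (Ne.symm hj2)
      intro h3
      apply hj1
      rw [h3, add_sub_cancel_right]
    · refine ⟨i, fun j hj1 hj2 => ?_⟩
      rw [ht, h_comb p _ _ _ _ _ (by ring)]
      have h3 : 0 < h p j (p (i + 1)) := by
        apply h_pos hp (Ne.symm hj2)
        intro h4
        exact hj1 (add_right_cancel h4).symm
      have h5 := h_nonneg hp j i
      have h6 : 0 ≤ 1 - t := by linarith
      positivity

lemma eq_vertex (hm : 3 ≤ m) (hp : ConvexPolygon p) {u : E 2} {i : Fin m}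
    (h1 : h p i u = 0) (h2 : h p (i + 1) u = 0) : u = p (i + 1) := by
  have hD := cross_ed hm hp i
  have h3 : cross (ed p i) (u - p (i + 1)) = 0 := by
    rw [← h_sub, h1, h_succ, sub_zero]
  have h4 : cross (u - p (i + 1)) (ed p (i + 1)) = 0 := by
    rw [cross_swap]
    have : cross (ed p (i + 1)) (u - p (i + 1)) = 0 := h2
    rw [this, neg_zero]
  have h5 := cross_basis (ed p i) (ed p (i + 1)) (u - p (i + 1))
  rw [h3, h4, zero_smul, zero_smul, add_zero] at h5
  rcases smul_eq_zero.1 h5 with h6 | h6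
  · exact absurd h6 hD.ne'
  · exact sub_eq_zero.1 h6

lemma two_tight (hm : 3 ≤ m) (hp : ConvexPolygon p) {u : E 2} (hu : u ∈ P p) {i j : Fin m}
    (hij : i ≠ j) (h1 : h p i u = 0) (h2 : h p j u = 0) :
    ∃ v : Fin m, u = p v ∧ ((i + 1 = v ∧ j = v) ∨ (j + 1 = v ∧ i = v)) := by
  obtain ⟨k, hk⟩ := chart_index hm hp hu
  have hi : i = k ∨ i = k + 1 := by
    by_contra hc
    push Not at hc
    exact absurd h1 (hk i hc.1 hc.2).ne'
  have hj : j = k ∨ j = k + 1 := by
    by_contra hc
    push Not at hc
    exact absurd h2 (hk j hc.1 hc.2).ne'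
  rcases hi with hi | hi <;> rcases hj with hj | hj
  · exact absurd (hi.trans hj.symm) hij
  · subst hi
    refine ⟨i + 1, eq_vertex hm hp h1 (hj ▸ h2), Or.inl ⟨rfl, hj⟩⟩
  · subst hj
    refine ⟨j + 1, eq_vertex hm hp h2 (hi ▸ h1), Or.inr ⟨rfl, hi⟩⟩
  · exact absurd (hi.trans hj.symm) hij

lemma P_convex : Convex ℝ (P p) := by
  intro u hu v hv a b ha hb hab i
  rw [h_comb p i u v a b hab]
  have := hu i
  have := hv i
  positivity

lemma h_continuous (i : Fin m) : Continuous (h p i) := by
  unfold h cross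
  fun_prop

/-- the polygon is the intersection of its half-planes -/
theorem P_eq (hm : 3 ≤ m) (hp : ConvexPolygon p) : P p = convexHull ℝ (range p) := by
  apply subset_antisymm
  · intro u hu
    by_contra hnot
    have hcl : IsClosed (convexHull ℝ (range p)) :=
      (Set.finite_range p).isClosed_convexHull ℝ
    obtain ⟨f, r, hf1, hf2⟩ := geometric_hahn_banach_closed_point
      (convex_convexHull ℝ (range p)) hcl hnot
    obtain ⟨v, hv⟩ := Finite.exists_max (fun i => f (p i))
    obtain ⟨i, rfl⟩ : ∃ i : Fin m, v = i + 1 := ⟨v - 1, by rw [sub_add_cancel]⟩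
    have hD := cross_ed hm hp i
    have h1 := cross_basis (ed p i) (ed p (i + 1)) (u - p (i + 1))
    have h2 := congrArg f h1
    rw [map_smul, map_add, map_smul, map_smul] at h2
    simp only [smul_eq_mul] at h2
    have h3 : cross (ed p i) (u - p (i + 1)) = h p i u := by
      rw [← h_sub, h_succ, sub_zero]
    have h4 : cross (u - p (i + 1)) (ed p (i + 1)) = - h p (i + 1) u := by
      rw [cross_swap]; rfl
    rw [h3, h4] at h2
    have h5 : 0 ≤ f (ed p i) := by
      unfold ed
      rw [map_sub]
      have := hv i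
      linarith
    have h6 : f (ed p (i + 1)) ≤ 0 := by
      unfold ed
      rw [map_sub]
      have := hv (i + 1 + 1)
      linarith
    have h7 := hu i
    have h8 := hu (i + 1)
    have h9 : cross (ed p i) (ed p (i + 1)) * f (u - p (i + 1)) ≤ 0 := by
      rw [h2]
      nlinarith [mul_nonneg h8 h5, mul_nonneg h7 (neg_nonneg.2 h6)]
    have h10 : f (u - p (i + 1)) ≤ 0 := by
      by_contra hc
      push Not at hc
      have := mul_pos hD hc
      linarith
    rw [map_sub] at h10
    have h11 := hf1 (p (i + 1)) (subset_convexHull ℝ _ ⟨i + 1, rfl⟩)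
    linarith
  · refine convexHull_min ?_ P_convex
    rintro _ ⟨j, rfl⟩
    exact p_mem hp j

/-- a point in the interior -/
lemma exists_interior (hm : 3 ≤ m) (hp : ConvexPolygon p) : ∃ u ∈ P p, ∀ i, 0 < h p i u := by
  have hsum : ∀ (s : Finset (Fin m)) (i : Fin m), s.Nonempty →
      h p i ((s.card : ℝ)⁻¹ • ∑ j ∈ s, p j) = (s.card : ℝ)⁻¹ * ∑ j ∈ s, h p i (p j) := by
    intro s i hs
    have hc : (s.card : ℝ) ≠ 0 := by
      have := hs.card_pos
      positivity
    have h1 : (s.card : ℝ)⁻¹ • ∑ j ∈ s, p j - p i = (s.card : ℝ)⁻¹ • ∑ j ∈ s, (p j - p i) := by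
      rw [Finset.sum_sub_distrib, smul_sub, Finset.sum_const, ← Nat.cast_smul_eq_nsmul ℝ, smul_smul,
        inv_mul_cancel₀ hc, one_smul]
    unfold h
    rw [h1, cross_smul]
    congr 1
    have h2 : ∀ (s : Finset (Fin m)), cross (ed p i) (∑ j ∈ s, (p j - p i)) =
        ∑ j ∈ s, cross (ed p i) (p j - p i) := by
      intro s
      induction s using Finset.induction_on with
      | empty => simp [cross]
      | insert a s ha ih => rw [Finset.sum_insert ha, Finset.sum_insert ha, cross_add, ih]
    exact h2 s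
  have hpos : ∀ i, 0 < h p i (((Finset.univ : Finset (Fin m)).card : ℝ)⁻¹ • ∑ j, p j) := by
    intro i
    rw [hsum _ _ Finset.univ_nonempty]
    have h1 : 0 < ∑ j, h p i (p j) := by
      apply Finset.sum_pos' (fun j _ => h_nonneg hp i j)
      exact ⟨i + 1 + 1, Finset.mem_univ _, h_pos hp (succ2_ne hm i) (succ_ne hm (i + 1))⟩
    have h2 : 0 < ((Finset.univ : Finset (Fin m)).card : ℝ) := by
      have := Finset.card_pos.2 (Finset.univ_nonempty (α := Fin m))
      positivity
    positivity
  exact ⟨_, fun i => (hpos i).le, hpos⟩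

lemma p_injective (hm : 3 ≤ m) (hp : ConvexPolygon p) : Function.Injective p := by
  intro i j hij
  by_contra hne
  by_cases h1 : j = i + 1
  · have h2 := h_pos hp (i := i + 1) (j := i) (succ_ne hm i).symm (succ2_ne hm i).symm
    rw [hij, h1, h_self] at h2
    exact lt_irrefl _ h2
  · have h2 := h_pos hp (i := i) (j := j) (Ne.symm hne) h1
    rw [← hij, h_self] at h2
    exact lt_irrefl _ h2

end Pool.Agent.H79.PM
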