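import Pool.Agent.H79.PM.Emb

/-!
The union of the `2 ^ m` copies is a closed connected surface.
-/

set_option autoImplicit false

open Set

namespace Pool.Agent.H79.PM

variable {m : ℕ} [NeZero m] {p : Fin m → E 2} (D : Data p)

lemma Data.isCompact (hm : 3 ≤ m) (hp : ConvexPolygon p) : IsCompact (⋃ x, D.F x) := by
  apply isCompact_iUnion
  intro x
  unfold Data.F
  rw [P_eq hm hp]
  exact ((Set.finite_range p).isCompact_convexHull ℝ).image (D.φ x).continuous

lemma Data.isConnected (hp : ConvexPolygon p) : IsConnected (⋃ x, D.F x) := by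
  classical
  apply IsConnected.iUnion_of_reflTransGen
  · intro x
    refine ⟨⟨D.φ x (p 0), p 0, p_mem hp 0, rfl⟩, ?_⟩
    exact P_convex.isPreconnected.image _ (D.φ x).continuous.continuousOn
  · intro x y
    have key : ∀ t : Finset (Fin m), Relation.ReflTransGen
        (fun i j : Fin m → Bool => (D.F i ∩ D.F j).Nonempty) x
        (fun j => if j ∈ t then y j else x j) := by
      intro t
      induction t using Finset.induction_on with
      | empty =>
        have : (fun j => if j ∈ (∅ : Finset (Fin m)) then y j else x j) = x := by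
          funext j; simp
        rw [this]
      | insert a t ha ih =>
        refine ih.tail ⟨D.φ _ (p a), ⟨p a, p_mem hp a, rfl⟩, ?_⟩
        apply (D.mem_F (p_mem hp a)).2
        intro j hj
        by_cases hja : j = a
        · rw [hja]; exact h_self p a
        · exfalso
          apply hj
          simp [hja]
    have := key Finset.univ
    simpa using this

/-- the point with prescribed values of two consecutive functionals -/
noncomputable def G (p : Fin m → E 2) (i : Fin m) (a b : ℝ) : E 2 :=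
  p (i + 1) + (cross (ed p i) (ed p (i + 1)))⁻¹ • (a • ed p (i + 1) - b • ed p i)

lemma h_G1 (hm : 3 ≤ m) (hp : ConvexPolygon p) (i : Fin m) (a b : ℝ) :
    h p i (G p i a b) = a := by
  have hD := cross_ed hm hp i
  have h1 := h_sub p i (G p i a b) (p (i + 1))
  rw [h_succ, sub_zero] at h1
  rw [h1]
  unfold G
  rw [add_sub_cancel_left, cross_smul, cross_sub, cross_smul, cross_smul, cross_self, mul_zero,
    sub_zero]
  field_simp

lemma h_G2 (hm : 3 ≤ m) (hp : ConvexPolygon p) (i : Fin m) (a b : ℝ) :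
    h p (i + 1) (G p i a b) = b := by
  have hD := cross_ed hm hp i
  have h1 := h_sub p (i + 1) (G p i a b) (p (i + 1))
  rw [h_self, sub_zero] at h1
  rw [h1]
  unfold G
  rw [add_sub_cancel_left, cross_smul, cross_sub, cross_smul, cross_smul, cross_self, mul_zero,
    zero_sub, cross_swap (ed p (i + 1))]
  field_simp

lemma G_h (hm : 3 ≤ m) (hp : ConvexPolygon p) (i : Fin m) (u : E 2) :
    G p i (h p i u) (h p (i + 1) u) = u := by
  have hD := cross_ed hm hp i
  have h1 := h_G1 hm hp i (h p i u) (h p (i + 1) u)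
  have h2 := h_G2 hm hp i (h p i u) (h p (i + 1) u)
  set v := G p i (h p i u) (h p (i + 1) u)
  have h3 : cross (ed p i) (v - u) = 0 := by rw [← h_sub, h1, sub_self]
  have h4 : cross (ed p (i + 1)) (v - u) = 0 := by rw [← h_sub, h2, sub_self]
  have h5 := cross_basis (ed p i) (ed p (i + 1)) (v - u)
  rw [h3, cross_swap (v - u), h4, neg_zero, zero_smul, zero_smul, add_zero] at h5
  rcases smul_eq_zero.1 h5 with h6 | h6
  · exact absurd h6 hD.ne'
  · exact sub_eq_zero.1 h6

lemma G_continuous (i : Fin m) : Continuous (fun ab : ℝ × ℝ => G p i ab.1 ab.2) := by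
  unfold G
  fun_prop

/-- the point of the plane over a chart point -/
noncomputable def Data.g (i : Fin m) (ab : ℝ × ℝ) : E 2 := G p i (|ab.1| / D.c) (|ab.2| / D.c)

lemma Data.g_continuous (i : Fin m) : Continuous (D.g i) := by
  unfold Data.g
  have h1 : Continuous (fun ab : ℝ × ℝ => ((|ab.1| / D.c, |ab.2| / D.c) : ℝ × ℝ)) := by
    fun_prop
  exact (G_continuous (p := p) i).comp h1

/-- the inverse chart -/
noncomputable def Data.Ψ (x : Fin m → Bool) (i : Fin m) (ab : ℝ × ℝ) : E (m + 2) :=
  WithLp.toLp 2 (Fin.cons (D.A (D.g i ab)) (Fin.cons (D.B (D.g i ab))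
    (fun j => if j = i then ab.1 else if j = i + 1 then ab.2 else
      sg (x j) * (D.c * h p j (D.g i ab)))))

lemma Data.Ψ0 (x : Fin m → Bool) (i : Fin m) (ab : ℝ × ℝ) : D.Ψ x i ab 0 = D.A (D.g i ab) := rfl
lemma Data.Ψ1 (x : Fin m → Bool) (i : Fin m) (ab : ℝ × ℝ) :
    D.Ψ x i ab (Fin.succ 0) = D.B (D.g i ab) := rfl
lemma Data.Ψ2 (x : Fin m → Bool) (i : Fin m) (ab : ℝ × ℝ) (j : Fin m) :
    D.Ψ x i ab j.succ.succ = if j = i then ab.1 else if j = i + 1 then ab.2 else
      sg (x j) * (D.c * h p j (D.g i ab)) := rfl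

lemma Data.Ψ_continuous (x : Fin m → Bool) (i : Fin m) : Continuous (D.Ψ x i) := by
  have hg := D.g_continuous i
  have h1 : Continuous (fun ab : ℝ × ℝ => (Fin.cons (D.A (D.g i ab)) (Fin.cons (D.B (D.g i ab))
    (fun j => if j = i then ab.1 else if j = i + 1 then ab.2 else
      sg (x j) * (D.c * h p j (D.g i ab)))) : Fin (m + 2) → ℝ)) := by
    apply continuous_pi
    intro k
    refine Fin.cases ?_ (fun k => ?_) k
    · exact D.A.continuous.comp hg
    · refine Fin.cases ?_ (fun k => ?_) k
      · exact D.B.continuous.comp hg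
      · simp only [Fin.cons_succ]
        by_cases h1 : k = i
        · simp only [h1, if_true]
          exact continuous_fst
        · simp only [h1, if_false]
          by_cases h2 : k = i + 1
          · simp only [h2, if_true]
            exact continuous_snd
          · simp only [h2, if_false]
            exact continuous_const.mul (continuous_const.mul ((h_continuous k).comp hg))
  exact (PiLp.continuous_toLp 2 _).comp h1

/-- the charts -/
lemma Data.chart (hm : 3 ≤ m) (hp : ConvexPolygon p) :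
    ∀ z ∈ ⋃ x, D.F x, ∃ U : Set (E (m + 2)), IsOpen U ∧ z ∈ U ∧
      ∃ V : Set (ℝ × ℝ), IsOpen V ∧ Nonempty (↥((⋃ x, D.F x) ∩ U) ≃ₜ ↥V) := by
  intro z hz
  obtain ⟨x, hx⟩ := mem_iUnion.1 hz
  obtain ⟨u, hu, rfl⟩ := hx
  obtain ⟨i, hi⟩ := chart_index hm hp hu
  have hsucc : i + 1 ≠ i := succ_ne hm i
  have hcoord : ∀ k : Fin (m + 2), Continuous (fun z : E (m + 2) => z k) := fun k => by fun_prop
  refine ⟨{z | ∀ j, j ≠ i → j ≠ i + 1 → 0 < sg (x j) * z j.succ.succ}, ?_, ?_,
    {ab | ∀ j, j ≠ i → j ≠ i + 1 → 0 < h p j (D.g i ab)}, ?_, ⟨?_⟩⟩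
  · simp only [Set.ofPred_forall]
    refine isOpen_iInter_of_finite (fun j => isOpen_iInter_of_finite (fun _ =>
      isOpen_iInter_of_finite (fun _ => ?_)))
    exact isOpen_lt continuous_const (continuous_const.mul (hcoord _))
  · intro j h1 h2
    rw [D.φ2, ← mul_assoc, sg_mul_self, one_mul]
    exact mul_pos D.hc (hi j h1 h2)
  · simp only [Set.ofPred_forall]
    refine isOpen_iInter_of_finite (fun j => isOpen_iInter_of_finite (fun _ =>
      isOpen_iInter_of_finite (fun _ => ?_)))
    exact isOpen_lt continuous_const ((h_continuous j).comp (D.g_continuous i))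
  · -- facts about points of the surface in `U`
    have hg : ∀ z ∈ (⋃ x, D.F x) ∩ {z | ∀ j, j ≠ i → j ≠ i + 1 → 0 < sg (x j) * z j.succ.succ},
        D.g i (z i.succ.succ, z (i + 1).succ.succ) ∈ P p ∧
        (∀ j, j ≠ i → j ≠ i + 1 → 0 < h p j (D.g i (z i.succ.succ, z (i + 1).succ.succ))) ∧
        D.Ψ x i (z i.succ.succ, z (i + 1).succ.succ) = z := by
      rintro z ⟨hz1, hz2⟩
      obtain ⟨y, hy⟩ := mem_iUnion.1 hz1
      obtain ⟨v, hv, rfl⟩ := hy
      have hgv : D.g i (D.φ y v i.succ.succ, D.φ y v (i + 1).succ.succ) = v := by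
        unfold Data.g
        simp only [D.φ2]
        rw [abs_sg_mul _ (mul_nonneg D.hc.le (hv i)),
          abs_sg_mul _ (mul_nonneg D.hc.le (hv (i + 1))), mul_div_cancel_left₀ _ D.hc.ne',
          mul_div_cancel_left₀ _ D.hc.ne']
        exact G_h hm hp i v
      have hxy : ∀ j, j ≠ i → j ≠ i + 1 → x j = y j ∧ 0 < h p j v := by
        intro j h1 h2
        have h3 : 0 < sg (x j) * D.φ y v j.succ.succ := hz2 j h1 h2
        rw [D.φ2] at h3
        have h4 : x j = y j := by
          by_contra hne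
          rw [sg_ne hne] at h3
          have h5 : -sg (y j) * (sg (y j) * (D.c * h p j v)) = -(D.c * h p j v) := by
            rw [neg_mul, ← mul_assoc, sg_mul_self, one_mul]
          rw [h5] at h3
          have := mul_nonneg D.hc.le (hv j)
          linarith
        refine ⟨h4, ?_⟩
        rw [h4, ← mul_assoc, sg_mul_self, one_mul] at h3
        exact (pos_iff_pos_of_mul_pos h3).1 D.hc
      rw [hgv]
      refine ⟨hv, fun j h1 h2 => (hxy j h1 h2).2, ?_⟩
      apply ext2
      · rw [D.Ψ0, hgv, D.φ0]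
      · rw [D.Ψ1, hgv, D.φ1]
      · intro j
        rw [D.Ψ2, hgv]
        by_cases h1 : j = i
        · rw [if_pos h1, h1]
        · rw [if_neg h1]
          by_cases h2 : j = i + 1
          · rw [if_pos h2, h2]
          · rw [if_neg h2, D.φ2, (hxy j h1 h2).1]
    -- facts about points of `V`
    have hV : ∀ ab ∈ {ab : ℝ × ℝ | ∀ j, j ≠ i → j ≠ i + 1 → 0 < h p j (D.g i ab)},
        D.Ψ x i ab ∈ (⋃ x, D.F x) ∩
          {z | ∀ j, j ≠ i → j ≠ i + 1 → 0 < sg (x j) * z j.succ.succ} := by
      intro ab hab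
      have h1 : h p i (D.g i ab) = |ab.1| / D.c := h_G1 hm hp i _ _
      have h2 : h p (i + 1) (D.g i ab) = |ab.2| / D.c := h_G2 hm hp i _ _
      refine ⟨?_, ?_⟩
      · rw [mem_iUnion]
        refine ⟨fun j => if j = i then decide (0 ≤ ab.1) else if j = i + 1 then
          decide (0 ≤ ab.2) else x j, D.g i ab, ?_, ?_⟩
        · intro j
          by_cases e1 : j = i
          · rw [e1, h1]
            exact div_nonneg (abs_nonneg _) D.hc.le
          · by_cases e2 : j = i + 1
            · rw [e2, h2]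
              exact div_nonneg (abs_nonneg _) D.hc.le
            · exact (hab j e1 e2).le
        · apply ext2
          · rfl
          · rfl
          · intro j
            rw [D.φ2, D.Ψ2]
            by_cases e1 : j = i
            · rw [if_pos e1, if_pos e1, e1, h1, mul_div_cancel₀ _ D.hc.ne', sg_decide_abs]
            · rw [if_neg e1, if_neg e1]
              by_cases e2 : j = i + 1
              · rw [if_pos e2, if_pos e2, e2, h2, mul_div_cancel₀ _ D.hc.ne', sg_decide_abs]
              · rw [if_neg e2, if_neg e2]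
      · intro j e1 e2
        rw [D.Ψ2, if_neg e1, if_neg e2, ← mul_assoc, sg_mul_self, one_mul]
        exact mul_pos D.hc (hab j e1 e2)
    exact
      { toFun := fun z => ⟨(z.1 i.succ.succ, z.1 (i + 1).succ.succ), (hg z.1 z.2).2.1⟩
        invFun := fun ab => ⟨D.Ψ x i ab.1, hV ab.1 ab.2⟩
        left_inv := fun z => Subtype.ext (hg z.1 z.2).2.2
        right_inv := by
          intro ab
          apply Subtype.ext
          apply Prod.ext
          · show D.Ψ x i ab.1 i.succ.succ = ab.1.1
            rw [D.Ψ2, if_pos rfl]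
          · show D.Ψ x i ab.1 (i + 1).succ.succ = ab.1.2
            rw [D.Ψ2, if_neg hsucc, if_pos rfl]
        continuous_toFun := by
          apply Continuous.subtype_mk
          exact ((hcoord _).comp continuous_subtype_val).prodMk
            ((hcoord _).comp continuous_subtype_val)
        continuous_invFun := by
          apply Continuous.subtype_mk
          exact (D.Ψ_continuous x i).comp continuous_subtype_val }

/-- the sign changes of the last `m` coordinates -/
noncomputable def rho (d : Fin m → Bool) : E (m + 2) ≃ₗᵢ[ℝ] E (m + 2) :=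
  LinearIsometryEquiv.piLpCongrRight 2 (fun k =>
    if (Fin.cons false (Fin.cons false d) : Fin (m + 2) → Bool) k then LinearIsometryEquiv.neg ℝ
    else LinearIsometryEquiv.refl ℝ ℝ)

lemma Data.rho_φ (d x : Fin m → Bool) (u : E 2) :
    rho d (D.φ x u) = D.φ (fun j => xor (x j) (d j)) u := by
  apply ext2
  · simp [rho, D.φ0]
  · have : rho d (D.φ x u) (Fin.succ 0) = D.φ x u (Fin.succ 0) := by
      simp only [rho, LinearIsometryEquiv.piLpCongrRight_apply, Fin.cons_succ, Fin.cons_zero]
      simp
    rw [this, D.φ1, D.φ1]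
  · intro j
    have : rho d (D.φ x u) j.succ.succ = (if d j then -1 else 1) * D.φ x u j.succ.succ := by
      simp only [rho, LinearIsometryEquiv.piLpCongrRight_apply, Fin.cons_succ]
      by_cases hd : d j = true
      · simp [hd]
      · simp [hd]
    rw [this, D.φ2, D.φ2]
    cases x j <;> cases d j <;> simp [sg]

lemma Data.rho_F (d x : Fin m → Bool) :
    rho d '' (D.F x) = D.F (fun j => xor (x j) (d j)) := by
  unfold Data.F
  rw [← image_comp]
  apply image_congr
  intro u _
  exact D.rho_φ d x u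

/-- For every convex `m`-gon `Q` there is a polyhedral manifold in `ℝ^(m + 2)` with exactly
`2 ^ m` faces, all of them congruent to `Q`, whose symmetry group is transitive on the faces. -/
theorem main (hm : 3 ≤ m) (hp : ConvexPolygon p) :
    ∃ F : Set (Set (E (m + 2))), IsPolyhedralManifold F ∧ F.ncard = 2 ^ m ∧
      (∀ S ∈ F, IsPolygon S m ∧ Congruent S (convexHull ℝ (range p))) ∧
      ∀ S ∈ F, ∀ T ∈ F, ∃ ρ : E (m + 2) ≃ₗᵢ[ℝ] E (m + 2), ρ '' S = T ∧ ∀ R ∈ F, ρ '' R ∈ F := by
  obtain ⟨D⟩ := exists_data p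
  refine ⟨range D.F, ⟨finite_range _, ?_, ?_, ?_, ?_⟩, ?_, ?_, ?_⟩
  · rintro _ ⟨x, rfl⟩
    exact ⟨m, D.isPolygon hm hp x⟩
  · rintro _ ⟨x, rfl⟩ _ ⟨y, rfl⟩ hne
    exact D.meets hm hp (fun hxy => hne (by rw [hxy]))
  · rw [sUnion_range]
    exact ⟨D.isCompact hm hp, D.isConnected hp, D.chart hm hp⟩
  · rintro _ ⟨x, rfl⟩ _ ⟨y, rfl⟩ hne _
    exact D.noncoplanar hm hp (fun hxy => hne (by rw [hxy]))
  · rw [← image_univ, ncard_image_of_injective _ (D.F_injective hm hp), ncard_univ,
      Nat.card_eq_fintype_card]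
    simp
  · rintro _ ⟨x, rfl⟩
    refine ⟨D.isPolygon hm hp x, D.φ x, ?_⟩
    rw [← P_eq hm hp]
    rfl
  · rintro _ ⟨x, rfl⟩ _ ⟨y, rfl⟩
    refine ⟨rho (fun j => xor (x j) (y j)), ?_, ?_⟩
    · rw [D.rho_F]
      congr 1
      funext j
      cases x j <;> cases y j <;> rfl
    · rintro _ ⟨z, rfl⟩
      rw [D.rho_F]
      exact ⟨_, rfl⟩

end Pool.Agent.H79.PM
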